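import Pool.Agent.Helper49.LC.St

/-!
Project LC (MP_58b586_gt), module IP3: uniform approximation of the infinite product.
-/

set_option autoImplicit false

open scoped ContDiff

namespace Pool.Agent.Helper75.LC

open Pool.Agent.Helper14.LK Pool.Agent.Helper49.LC

section

variable {n : ℕ} (a : EE n) (q : ℝ) (e : ℕ) (f f' : WW n → WW n)

/-- one factor -/
private noncomputable def fj (f : WW n → WW n) (j : ℕ) (w : WW n) : WW n :=
  Tk a q (2 * j + e) (f (Ti a q (2 * j + e) w))

/-- the finite products -/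
private noncomputable def FN : ℕ → WW n → WW n
  | 0 => fun w => w
  | N + 1 => fun w => FN N (fj a q e f N w)

/-- the inverses of the finite products -/
private noncomputable def GN : ℕ → WW n → WW n
  | 0 => fun w => w
  | N + 1 => fun w => fj a q e f' N (GN N w)

private theorem FN_succ (N : ℕ) (w : WW n) :
    FN a q e f (N + 1) w = FN a q e f N (fj a q e f N w) := rfl

private theorem GN_succ (N : ℕ) (w : WW n) :
    GN a q e f' (N + 1) w = fj a q e f' N (GN a q e f' N w) := rfl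

private theorem centre (k : ℕ) : tm (ce a q k) (q ^ k) (((1 / 2 : ℝ) • a, 0) : WW n) =
    (ce a q k + (q ^ k / 2) • a, 0) := by
  unfold tm
  rw [Prod.smul_mk, smul_zero, Prod.mk_add_mk, add_zero, smul_smul]
  congr 3
  ring

end

/-- **IP3** -/
theorem hIP3 (hSWG : StSWG) (hGRP : StGRP) : StIP3 := by
  intro n a q R e f f' F Fi hR hq hq1 ha hf hIP ε hε
  obtain ⟨g1, g2, g3, -, g5, g6, -⟩ := hGRP
  obtain ⟨s1, -, -, -, -, -, -, -, -, -, s11, -⟩ := hSWG n a q R hR hq hq1.le ha
  set K : ℝ := ‖a‖ / 2 + 2 * R with hK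
  have hKp : 0 < K := by positivity
  set Rb : ℝ := (1 - q)⁻¹ * ‖a‖ + ‖a‖ + 2 * R + 1 with hRb
  -- one factor
  have hb : ∀ j, HB ((ce a q (2 * j + e) + (q ^ (2 * j + e) / 2) • a, 0) : WW n)
      (q ^ (2 * j + e) * K) (fj a q e f j) (fj a q e f' j) := by
    intro j
    rw [← centre]
    exact g5 n _ _ f f' (ce a q (2 * j + e)) (q ^ (2 * j + e)) (pow_pos hq _) hf
  have hb0 : ∀ j, HB (0 : WW n) Rb (fj a q e f j) (fj a q e f' j) := by
    intro j
    refine g2 n _ 0 _ Rb _ _ (hb j) ?_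
    intro w hw
    by_contra hlt
    push Not at hlt
    have h1 := s11 hq1 (2 * j + e) w hlt.le
    rw [sub_zero] at hw
    linarith
  have hN : ∀ N, HB (0 : WW n) Rb (FN a q e f N) (GN a q e f' N) := by
    intro N
    induction N with
    | zero => exact g2 n 0 0 Rb Rb _ _ (g1 n 0 Rb) (fun w hw => hw)
    | succ N ih =>
      exact g3 n 0 Rb (FN a q e f N) (GN a q e f' N) (fj a q e f N) (fj a q e f' N) ih (hb0 N)
  -- disjoint balls
  have hdis : ∀ i j, i ≠ j → ∀ w, w ∈ VV a q R (2 * i + e) → w ∉ VV a q R (2 * j + e) := by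
    intro i j hij w hi hj
    rcases lt_or_gt_of_ne hij with h | h
    · exact Set.disjoint_left.1 (s1 (2 * i + e) (2 * j + e) (by omega)) hi hj
    · exact Set.disjoint_left.1 (s1 (2 * j + e) (2 * i + e) (by omega)) hj hi
  have hout : ∀ j w, w ∉ VV a q R (2 * j + e) → fj a q e f j w = w ∧ fj a q e f' j w = w := by
    intro j w hw
    refine (g6 n _ _ _ _ (hb j)).2.1 w ?_
    by_contra hlt
    push Not at hlt
    exact hw hlt.le
  have hin : ∀ j w, w ∈ VV a q R (2 * j + e) → (fj a q e f j w = F w ∧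
      F w ∈ VV a q R (2 * j + e)) ∧ (fj a q e f' j w = Fi w ∧ Fi w ∈ VV a q R (2 * j + e)) := by
    intro j w hw
    obtain ⟨h1, h2⟩ := hIP.inF j w hw
    obtain ⟨h3, h4⟩ := hIP.inFi j w hw
    exact ⟨⟨h2.symm, h1⟩, ⟨h4.symm, h3⟩⟩
  -- the products
  have key : ∀ N w, (∀ j < N, w ∈ VV a q R (2 * j + e) →
      FN a q e f N w = F w ∧ GN a q e f' N w = Fi w) ∧
      ((∀ j < N, w ∉ VV a q R (2 * j + e)) → FN a q e f N w = w ∧ GN a q e f' N w = w) := by
    intro N
    induction N with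
    | zero =>
      intro w
      exact ⟨fun j hj => absurd hj (Nat.not_lt_zero j), fun _ => ⟨rfl, rfl⟩⟩
    | succ N ih =>
      intro w
      constructor
      · intro j hj hw
        rw [FN_succ, GN_succ]
        rcases Nat.lt_succ_iff_lt_or_eq.1 hj with h | h
        · have hwN := hdis j N h.ne w hw
          obtain ⟨e1, e2⟩ := (ih w).1 j h hw
          rw [(hout N w hwN).1, e1, e2]
          refine ⟨rfl, ?_⟩
          exact (hout N _ (hdis j N h.ne _ (hin j w hw).2.2)).2
        · subst h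
          obtain ⟨⟨e1, e2⟩, ⟨e3, e4⟩⟩ := hin j w hw
          rw [e1]
          have h1 : ∀ i < j, F w ∉ VV a q R (2 * i + e) := fun i hi =>
            hdis j i hi.ne' _ e2
          have h2 : ∀ i < j, w ∉ VV a q R (2 * i + e) := fun i hi => hdis j i hi.ne' _ hw
          rw [((ih (F w)).2 h1).1, ((ih w).2 h2).2]
          exact ⟨rfl, e3⟩
      · intro hw
        rw [FN_succ, GN_succ]
        have h1 : w ∉ VV a q R (2 * N + e) := hw N (Nat.lt_succ_self N)
        have h2 := (ih w).2 fun j hj => hw j (Nat.lt_succ_of_lt hj)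
        rw [(hout N w h1).1, h2.1, h2.2]
        exact ⟨rfl, (hout N w h1).2⟩
  obtain ⟨N, hNε⟩ := exists_pow_lt_of_lt_one (show 0 < ε / (2 * K) by positivity) hq1
  have hsmall : ∀ j, N ≤ j → 2 * (q ^ (2 * j + e) * K) < ε := by
    intro j hj
    have h1 : q ^ (2 * j + e) ≤ q ^ N := pow_le_pow_of_le_one hq.le hq1.le (by omega)
    have h2 : q ^ (2 * j + e) < ε / (2 * K) := h1.trans_lt hNε
    rw [lt_div_iff₀ (by positivity)] at h2
    linarith
  have hdist : ∀ j (u w : WW n), N ≤ j → u ∈ VV a q R (2 * j + e) → w ∈ VV a q R (2 * j + e) →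
      ‖w - u‖ < ε := by
    intro j u w hj hu hw
    have hu' : ‖u - (ce a q (2 * j + e) + (q ^ (2 * j + e) / 2) • a, 0)‖ ≤
      q ^ (2 * j + e) * K := hu
    have hw' : ‖w - (ce a q (2 * j + e) + (q ^ (2 * j + e) / 2) • a, 0)‖ ≤
      q ^ (2 * j + e) * K := hw
    have h1 := norm_sub_le (w - (ce a q (2 * j + e) + (q ^ (2 * j + e) / 2) • a, 0))
      (u - (ce a q (2 * j + e) + (q ^ (2 * j + e) / 2) • a, 0))
    rw [sub_sub_sub_cancel_right] at h1
    have h2 := hsmall j hj
    linarith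
  have hfin : ∀ w, ‖FN a q e f N w - F w‖ < ε ∧ ‖GN a q e f' N w - Fi w‖ < ε := by
    intro w
    by_cases h1 : ∃ j < N, w ∈ VV a q R (2 * j + e)
    · obtain ⟨j, hj, hw⟩ := h1
      obtain ⟨e1, e2⟩ := (key N w).1 j hj hw
      rw [e1, e2, sub_self, sub_self, norm_zero]
      exact ⟨hε, hε⟩
    · push Not at h1
      obtain ⟨e1, e2⟩ := (key N w).2 h1
      rw [e1, e2]
      by_cases h2 : ∃ j, w ∈ VV a q R (2 * j + e)
      · obtain ⟨j, hw⟩ := h2
        have hj : N ≤ j := by
          by_contra hlt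
          push Not at hlt
          exact h1 j hlt hw
        exact ⟨hdist j _ _ hj (hIP.inF j w hw).1 hw, hdist j _ _ hj (hIP.inFi j w hw).1 hw⟩
      · push Not at h2
        obtain ⟨e3, e4⟩ := hIP.out w h2
        rw [e3, e4, sub_self, norm_zero]
        exact ⟨hε, hε⟩
  exact ⟨FN a q e f N, GN a q e f' N, hN N, fun w => (hfin w).1, fun w => (hfin w).2⟩

end Pool.Agent.Helper75.LC
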